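import Mathlib
import Pool.Agent.Lib.MP_c37615_al.Defs2

/-!
MP_c37615_al, part R: basic facts on linear parts, polynomial functions, Zariski density.
-/

set_option autoImplicit false

open Filter Topology

namespace C37.PR

theorem lin_mulVec (γ : V ≃ᵃ[ℝ] V) (v : V) : (lin γ).mulVec v = γ.linear v := by
  unfold lin
  rw [← Matrix.toLin'_apply, Matrix.toLin'_toMatrix']
  rfl

theorem lin_one : lin (1 : V ≃ᵃ[ℝ] V) = 1 := by
  unfold lin
  exact LinearMap.toMatrix'_one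

theorem lin_mul (γ δ : V ≃ᵃ[ℝ] V) : lin (γ * δ) = lin γ * lin δ := by
  unfold lin
  rw [← LinearMap.toMatrix'_mul]
  rfl

theorem lin_mul_inv (γ : V ≃ᵃ[ℝ] V) : lin γ * lin γ⁻¹ = 1 := by
  rw [← lin_mul, mul_inv_cancel, lin_one]

theorem lin_inv_mul (γ : V ≃ᵃ[ℝ] V) : lin γ⁻¹ * lin γ = 1 := by
  rw [← lin_mul, inv_mul_cancel, lin_one]

theorem lin_inv (γ : V ≃ᵃ[ℝ] V) : lin γ⁻¹ = (lin γ)⁻¹ :=
  (Matrix.inv_eq_right_inv (lin_mul_inv γ)).symm

theorem aff_apply (γ : V ≃ᵃ[ℝ] V) (v : V) : γ v = (lin γ).mulVec v + γ 0 := by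
  rw [lin_mulVec]
  have := γ.map_vadd 0 v
  simpa using this

theorem aff_ext (γ δ : V ≃ᵃ[ℝ] V) (h1 : lin γ = lin δ) (h2 : γ 0 = δ 0) : γ = δ := by
  ext v : 1
  rw [aff_apply γ, aff_apply δ, h1, h2]

theorem aff_mul_zero (γ δ : V ≃ᵃ[ℝ] V) : (γ * δ) 0 = (lin γ).mulVec (δ 0) + γ 0 := by
  rw [← aff_apply γ (δ 0)]
  rfl

theorem lin_inG {Γ : Subgroup (V ≃ᵃ[ℝ] V)} (h : Cryst Γ) {γ : V ≃ᵃ[ℝ] V} (hγ : γ ∈ Γ) : InG (lin γ) := by
  intro u v w
  rw [lin_mulVec, lin_mulVec, lin_mulVec]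
  exact h.inG γ hγ u v w

/-- polynomial functions on matrices -/
def PolyFn (f : Mat → ℝ) : Prop :=
  ∃ P : MvPolynomial (Fin 7 × Fin 7) ℝ, ∀ A : Mat, MvPolynomial.eval (fun p : Fin 7 × Fin 7 => A p.1 p.2) P = f A

theorem PolyFn.const (c : ℝ) : PolyFn (fun _ => c) := ⟨MvPolynomial.C c, fun A => by simp⟩

theorem PolyFn.entry (i j : Fin 7) : PolyFn (fun A => A i j) := ⟨MvPolynomial.X (i, j), fun A => by simp⟩

theorem PolyFn.add {f g : Mat → ℝ} (hf : PolyFn f) (hg : PolyFn g) : PolyFn (fun A => f A + g A) := by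
  obtain ⟨P, hP⟩ := hf
  obtain ⟨Q, hQ⟩ := hg
  exact ⟨P + Q, fun A => by simp [hP, hQ]⟩

theorem PolyFn.mul {f g : Mat → ℝ} (hf : PolyFn f) (hg : PolyFn g) : PolyFn (fun A => f A * g A) := by
  obtain ⟨P, hP⟩ := hf
  obtain ⟨Q, hQ⟩ := hg
  exact ⟨P * Q, fun A => by simp [hP, hQ]⟩

theorem PolyFn.neg {f : Mat → ℝ} (hf : PolyFn f) : PolyFn (fun A => - f A) := by
  obtain ⟨P, hP⟩ := hf
  exact ⟨-P, fun A => by simp [hP]⟩

theorem PolyFn.sub {f g : Mat → ℝ} (hf : PolyFn f) (hg : PolyFn g) : PolyFn (fun A => f A - g A) := by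
  simpa [sub_eq_add_neg] using hf.add hg.neg

theorem PolyFn.sum {ι : Type} (s : Finset ι) (f : ι → Mat → ℝ) (hf : ∀ i ∈ s, PolyFn (f i)) :
    PolyFn (fun A => ∑ i ∈ s, f i A) := by
  classical
  induction s using Finset.induction_on with
  | empty => simpa using PolyFn.const 0
  | insert a s ha ih =>
    have h1 := hf a (Finset.mem_insert_self a s)
    have h2 := ih (fun i hi => hf i (Finset.mem_insert_of_mem hi))
    have := h1.add h2
    simpa [Finset.sum_insert ha] using this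

theorem PolyFn.prod {ι : Type} (s : Finset ι) (f : ι → Mat → ℝ) (hf : ∀ i ∈ s, PolyFn (f i)) :
    PolyFn (fun A => ∏ i ∈ s, f i A) := by
  classical
  induction s using Finset.induction_on with
  | empty => simpa using PolyFn.const 1
  | insert a s ha ih =>
    have h1 := hf a (Finset.mem_insert_self a s)
    have h2 := ih (fun i hi => hf i (Finset.mem_insert_of_mem hi))
    have := h1.mul h2
    simpa [Finset.prod_insert ha] using this

/-- Zariski density, for polynomial functions -/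
theorem cryst_dense {Γ : Subgroup (V ≃ᵃ[ℝ] V)} (h : Cryst Γ) {f : Mat → ℝ} (hf : PolyFn f)
    (h0 : ∀ γ ∈ Γ, f (lin γ) = 0) (A : Mat) (hA : InG A) : f A = 0 := by
  obtain ⟨P, hP⟩ := hf
  rw [← hP A]
  refine h.zd P ?_ A hA
  intro γ hγ
  have := hP (lin γ)
  rw [h0 γ hγ] at this
  exact this

/-- If `f` is polynomial and not identically zero on G then it is nonzero somewhere on Γ. -/
theorem cryst_exists_ne {Γ : Subgroup (V ≃ᵃ[ℝ] V)} (h : Cryst Γ) {f : Mat → ℝ} (hf : PolyFn f)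
    {A : Mat} (hA : InG A) (h0 : f A ≠ 0) : ∃ γ ∈ Γ, f (lin γ) ≠ 0 := by
  by_contra hcon
  push Not at hcon
  exact h0 (cryst_dense h hf hcon A hA)

theorem inG_one : InG (1 : Mat) := by intro u v w; simp

theorem inG_mul {g k : Mat} (hg : InG g) (hk : InG k) : InG (g * k) := by
  intro u v w
  rw [← Matrix.mulVec_mulVec, ← Matrix.mulVec_mulVec, ← Matrix.mulVec_mulVec, hg, hk]

end C37.PR
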