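import Mathlib
import Pool.Agent.Lib.MP_c37615_al.R.Basic

/-!
MP_c37615_al (S02984), part R, file RDefs. See /team-store/MP_c37615_PAPER.md, section 2.
-/

set_option autoImplicit false

open Filter Topology

namespace C37.PR

/-- the matrix of `B` -/
def J0 : Mat := Matrix.diagonal ![1, 1, 1, -1, -1, -1, -1]

/-- translation vectors of Γ -/
def TV (Γ : Subgroup (V ≃ᵃ[ℝ] V)) : Set V := {v | ∃ γ ∈ Γ, lin γ = 1 ∧ γ 0 = v}

/-- `M8`: 8x8 matrices in block form -/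
abbrev M8 := Matrix (Fin 7 ⊕ Unit) (Fin 7 ⊕ Unit) ℝ

/-- affine maps as 8x8 matrices, translation part multiplied by `d` -/
noncomputable def T8 (d : ℝ) (γ : V ≃ᵃ[ℝ] V) : M8 :=
  Matrix.fromBlocks (lin γ) (Matrix.of fun i _ => d * γ 0 i) 0 1

open scoped Matrix.Norms.Operator in
/-- the size of `γ`: `‖T8 d γ - 1‖` in the operator norm (`linftyOp`: maximal absolute row sum) -/
noncomputable def nu (d : ℝ) (γ : V ≃ᵃ[ℝ] V) : ℝ := ‖T8 d γ - 1‖

open scoped Matrix.Norms.Operator in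
/-- size of the linear part -/
noncomputable def mu (γ : V ≃ᵃ[ℝ] V) : ℝ := ‖lin γ - 1‖

open scoped Matrix.Norms.Operator in
theorem nu_nonneg (d : ℝ) (γ : V ≃ᵃ[ℝ] V) : 0 ≤ nu d γ := by
  unfold nu; exact norm_nonneg _

open scoped Matrix.Norms.Operator in
theorem mu_nonneg (γ : V ≃ᵃ[ℝ] V) : 0 ≤ mu γ := by
  unfold mu; exact norm_nonneg _

/-- the centre of a subalgebra, as a subspace of the matrices -/
def centre (Aa : Subalgebra ℝ Mat) : Submodule ℝ Mat where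
  carrier := {a | a ∈ Aa ∧ ∀ b ∈ Aa, a * b = b * a}
  add_mem' := by
    rintro a b ⟨ha, ha'⟩ ⟨hb, hb'⟩
    exact ⟨Aa.add_mem ha hb, fun c hc => by rw [add_mul, mul_add, ha' c hc, hb' c hc]⟩
  zero_mem' := ⟨Aa.zero_mem, fun b _ => by simp⟩
  smul_mem' := by
    rintro c a ⟨ha, ha'⟩
    exact ⟨Aa.smul_mem ha c, fun b hb => by rw [smul_mul_assoc, mul_smul_comm, ha' b hb]⟩

/-- the algebra generated by the linear parts of the elements of Γ with `mu < e` -/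
noncomputable def Aeps (Γ : Subgroup (V ≃ᵃ[ℝ] V)) (e : ℝ) : Subalgebra ℝ Mat :=
  Algebra.adjoin ℝ (lin '' {γ : V ≃ᵃ[ℝ] V | γ ∈ Γ ∧ mu γ < e})

end C37.PR
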