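import Mathlib
import Pool.Agent.Lib.MP_c37615_al.R.RDefs

/-!
MP_c37615_al (S02984), part R, file InvB. See /team-store/MP_c37615_PAPER.md, section 2.
-/

set_option autoImplicit false

open Filter Topology

namespace C37.PR

/-- A linear subspace of V is an intersection of hyperplanes: `v ∉ W` is detected by a linear functional
vanishing on W, given by a vector `c` (`Submodule.exists_le_ker_of_notMem` or the like, and
`f v = ∑ i, v i * f (Pi.single i 1)`). -/
theorem exists_functional_V (W : Submodule ℝ V) (v : V) (hv : v ∉ W) :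
    ∃ c : V, (∀ w ∈ W, ∑ i, c i * w i = 0) ∧ ∑ i, c i * v i ≠ 0 := by
  obtain ⟨f, hf, hW⟩ := Submodule.exists_le_ker_of_notMem hv
  have key : ∀ w : V, ∑ i, f (Pi.single i 1) * w i = f w := by
    intro w
    rw [LinearMap.pi_apply_eq_sum_univ f w]
    refine Finset.sum_congr rfl (fun i _ => ?_)
    rw [smul_eq_mul, mul_comm]
    congr 2
    funext j
    rw [Pi.single_apply]
    simp [eq_comm]
  refine ⟨fun i => f (Pi.single i 1), fun w hw => ?_, ?_⟩
  · rw [key w]
    exact hW hw
  · rw [key v]
    exact hf

/-- The same for subspaces of the matrix space. -/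
theorem exists_functional_Mat (W : Submodule ℝ Mat) (v : Mat) (hv : v ∉ W) :
    ∃ c : Mat, (∀ w ∈ W, ∑ i, ∑ j, c i j * w i j = 0) ∧ ∑ i, ∑ j, c i j * v i j ≠ 0 := by
  obtain ⟨f, hf, hW⟩ := Submodule.exists_le_ker_of_notMem hv
  have key : ∀ w : Mat, ∑ i, ∑ j, f (Matrix.single i j 1) * w i j = f w := by
    intro w
    conv_rhs => rw [Matrix.matrix_eq_sum_single w]
    rw [map_sum]
    refine Finset.sum_congr rfl (fun i _ => ?_)
    rw [map_sum]
    refine Finset.sum_congr rfl (fun j _ => ?_)
    have e : Matrix.single i j (w i j) = (w i j) • Matrix.single i j (1 : ℝ) := by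
      rw [Matrix.smul_single, smul_eq_mul, mul_one]
    rw [e, map_smul, smul_eq_mul, mul_comm]
  refine ⟨Matrix.of fun i j => f (Matrix.single i j 1), fun w hw => ?_, ?_⟩
  · simp only [Matrix.of_apply]
    rw [key w]
    exact hW hw
  · simp only [Matrix.of_apply]
    rw [key v]
    exact hf

end C37.PR
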