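import Mathlib
import Pool.Agent.Lib.MP_c37615_al.R.InvB

/-!
MP_c37615_al (S02984), part R, file InvC. See /team-store/MP_c37615_PAPER.md, section 2.
-/

set_option autoImplicit false

open Filter Topology

namespace C37.PR

/-- A subspace of V invariant under Γ is invariant under G. Proof: let `g ∈ G`, `w ∈ W`, suppose `g w ∉ W`; take `c` from
`exists_functional_V`. The function `A ↦ ∑ i, c i * (A.mulVec w) i = ∑ i, c i * ∑ j, A i j * w j` is a `PolyFn`
(`PolyFn.sum, .mul, .const, .entry`), vanishes at all `lin γ`, so by `h.dense` it vanishes at `g`: contradiction. -/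
theorem subspace_inv (Γ : Subgroup (V ≃ᵃ[ℝ] V)) (h : Cryst Γ) (W : Submodule ℝ V)
    (hW : ∀ γ ∈ Γ, ∀ w ∈ W, (lin γ).mulVec w ∈ W) (g : Mat) (hg : InG g) (w : V) (hw : w ∈ W) :
    g.mulVec w ∈ W := by
  by_contra hn
  obtain ⟨c, hc, hc'⟩ := exists_functional_V W (g.mulVec w) hn
  have hp : PolyFn (fun A => ∑ i, c i * (∑ j, A i j * w j)) := by
    refine PolyFn.sum _ (fun i A => c i * ∑ j, A i j * w j) fun i _ => ?_
    refine (PolyFn.const (c i)).mul ?_
    exact PolyFn.sum _ (fun j A => A i j * w j) fun j _ => (PolyFn.entry i j).mul (PolyFn.const (w j))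
  refine hc' ?_
  exact cryst_dense h hp (fun γ hγ => hc _ (hW γ hγ w hw)) g hg

end C37.PR
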