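import Mathlib
import Pool.Agent.Lib.MP_c37615_al.R.Basic

/-!
MP_c37615_al (S02984), part R, file TorsA. See /team-store/MP_c37615_PAPER.md, section 2.
-/

set_option autoImplicit false

open Filter Topology

namespace C37.PR

/-- An affine map of finite order has a fixed point. Proof: with `γ ^ n = 1`, `n > 0`, take
`v = (1/n) • ∑ k in range n, (γ ^ k) 0`. As `γ` is affine, `γ v = (1/n) • ∑ k, γ ((γ^k) 0)
= (1/n) • ∑ k, (γ^(k+1)) 0` (use `aff_apply`: `γ x = lin γ x + γ 0`, linearity of mulVec, and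
`n * (1/n) = 1` for the translation parts), and the shifted sum is the same because `(γ^n) 0 = 0 = (γ^0) 0`
(`Finset.sum_range_succ`, `Finset.sum_range_succ'`). -/
theorem exists_fixed (γ : V ≃ᵃ[ℝ] V) (h : IsOfFinOrder γ) : ∃ v : V, γ v = v := by
  obtain ⟨n, hn, hγ⟩ := isOfFinOrder_iff_pow_eq_one.1 h
  have hn' : (n : ℝ) ≠ 0 := by exact_mod_cast hn.ne'
  set s : V := ∑ k ∈ Finset.range n, (γ ^ k) 0 with hs
  have e1 : ∑ k ∈ Finset.range n, γ ((γ ^ k) 0) = (lin γ).mulVec s + (n : ℝ) • γ 0 := by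
    rw [Finset.sum_congr rfl (fun k _ => aff_apply γ ((γ ^ k) 0)), Finset.sum_add_distrib,
      Finset.sum_const, Finset.card_range, hs, Matrix.mulVec_sum, Nat.cast_smul_eq_nsmul]
  have e2 : ∑ k ∈ Finset.range n, γ ((γ ^ k) 0) = ∑ k ∈ Finset.range n, (γ ^ (k + 1)) 0 := by
    refine Finset.sum_congr rfl (fun k _ => ?_)
    rw [pow_succ']
    rfl
  have e3 : ∑ k ∈ Finset.range n, (γ ^ (k + 1)) 0 = s := by
    have h1 := Finset.sum_range_succ' (fun k => (γ ^ k) (0 : V)) n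
    rw [Finset.sum_range_succ, hγ] at h1
    have h2 : (1 : V ≃ᵃ[ℝ] V) (0 : V) = 0 := rfl
    rw [pow_zero, h2, add_zero, add_zero] at h1
    exact h1.symm
  have e4 : (lin γ).mulVec s + (n : ℝ) • γ 0 = s := by rw [← e1, e2, e3]
  refine ⟨(n : ℝ)⁻¹ • s, ?_⟩
  rw [aff_apply, Matrix.mulVec_smul]
  conv_rhs => rw [← e4]
  rw [smul_add, smul_smul, inv_mul_cancel₀ hn', one_smul]

end C37.PR
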