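import Mathlib
import Pool.Agent.Lib.MP_c37615_al.R.TorsA

/-!
MP_c37615_al (S02984), part R, file TorsB. See /team-store/MP_c37615_PAPER.md, section 2.
-/

set_option autoImplicit false

open Filter Topology

namespace C37.PR

/-- Torsion elements of a crystallographic group have bounded order. Proof: let `K` be compact with
`Γ K = V` (`h.cocompact`), `S = {γ ∈ Γ | γ '' K ∩ K nonempty}`, finite by `h.proper`. Let `γ ∈ Γ` have finite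
order, `v` a fixed point (`exists_fixed`), `v = δ k`, `δ ∈ Γ`, `k ∈ K`. Then `σ = δ⁻¹ * γ * δ ∈ Γ` fixes `k`, so `σ ∈ S`,
and `orderOf σ = orderOf γ` (conjugation: `σ = δ⁻¹ * γ * (δ⁻¹)⁻¹`, e.g. `orderOf_injective (MulAut.conj δ⁻¹).toMonoidHom`, or
directly: `σ ^ k = δ⁻¹ * γ ^ k * δ`).  Let `N = 1 + ∑ σ in S.toFinset, orderOf σ`; then `k = orderOf γ` is `> 0` and `≤ N`
and `γ ^ k = 1` (`pow_orderOf_eq_one`). -/
theorem torsion_bound (Γ : Subgroup (V ≃ᵃ[ℝ] V)) (h : Cryst Γ) :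
    ∃ N : ℕ, 0 < N ∧ ∀ γ ∈ Γ, IsOfFinOrder γ → ∃ k, 0 < k ∧ k ≤ N ∧ γ ^ k = 1 := by
  classical
  obtain ⟨K, hK, hcov⟩ := h.cocompact
  have hfin := h.proper K hK
  refine ⟨1 + ∑ σ ∈ hfin.toFinset, orderOf σ, by omega, ?_⟩
  intro γ hγ hf
  obtain ⟨v, hv⟩ := exists_fixed γ hf
  obtain ⟨δ, hδ, k, hk, hkv⟩ := hcov v
  have hσΓ : δ⁻¹ * γ * δ ∈ Γ := Γ.mul_mem (Γ.mul_mem (Γ.inv_mem hδ) hγ) hδ
  have hσk : (δ⁻¹ * γ * δ) k = k := by
    show δ⁻¹ (γ (δ k)) = k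
    rw [hkv, hv, ← hkv]
    exact δ.symm_apply_apply k
  have hmem : δ⁻¹ * γ * δ ∈ hfin.toFinset := by
    rw [Set.Finite.mem_toFinset]
    exact ⟨hσΓ, k, ⟨k, hk, hσk⟩, hk⟩
  have hord : orderOf (δ⁻¹ * γ * δ) = orderOf γ := by
    have h1 := orderOf_injective (MulAut.conj δ⁻¹).toMonoidHom (MulAut.conj δ⁻¹).injective γ
    rw [← h1]
    congr 1
  refine ⟨orderOf γ, hf.orderOf_pos, ?_, pow_orderOf_eq_one γ⟩
  rw [← hord]
  have := Finset.single_le_sum (f := fun σ : V ≃ᵃ[ℝ] V => orderOf σ)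
    (fun σ _ => Nat.zero_le _) hmem
  omega

end C37.PR
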